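import Mathlib
import Pool.Agent.H577R3.RM.Stmts

/-!
# Windows with different values of an order-valued character (deterministic part)
-/

set_option autoImplicit false

namespace Pool.Agent.H787R3.RM

open Pool.Agent.H577R3.RM Pool.Agent.H577R3 Pool.Agent.Helper777.Prof

theorem pos_succ {n ℓ : ℕ} (w : Fin ℓ → Lt n) (j : ℕ) :
    pos w (j + 1) = pos w j + ∑ i : Fin ℓ, (if i.1 = j then vec (w i) else 0) := by
  unfold pos
  rw [← Finset.sum_add_distrib]
  refine Finset.sum_congr rfl fun i _ => ?_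
  by_cases h : i.1 < j
  · have h1 : i.1 ≠ j := by omega
    have h2 : i.1 < j + 1 := by omega
    simp [h, h1, h2]
  · by_cases h3 : i.1 = j
    · have h2 : i.1 < j + 1 := by omega
      rw [if_pos h2, if_neg h, if_pos h3, zero_add]
    · have h2 : ¬ i.1 < j + 1 := by omega
      rw [if_neg h2, if_neg h, if_neg h3, zero_add]

set_option linter.unusedSectionVars false

variable {A : Type} [AddCommGroup A] [LinearOrder A] [IsOrderedAddMonoid A]

theorem step_le {n ℓ : ℕ} (f : (Fin n → ℤ) →+ A) (M : A) (hM0 : 0 ≤ M)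
    (hM : ∀ l, |f (Pi.single l 1)| ≤ M) (w : Fin ℓ → Lt n) (j : ℕ) :
    |f (pos w (j + 1)) - f (pos w j)| ≤ M := by
  rw [pos_succ, map_add, add_sub_cancel_left]
  by_cases h : j < ℓ
  · have h1 : (∑ i : Fin ℓ, (if i.1 = j then vec (w i) else 0)) = vec (w ⟨j, h⟩) := by
      rw [Finset.sum_eq_single ⟨j, h⟩]
      · simp
      · intro i _ hi
        rw [if_neg]
        intro h2
        exact hi (Fin.ext h2)
      · intro h2
        exact absurd (Finset.mem_univ _) h2
    rw [h1]
    unfold vec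
    split_ifs
    · exact hM _
    · rw [map_neg, abs_neg]
      exact hM _
  · have h1 : (∑ i : Fin ℓ, (if i.1 = j then vec (w i) else 0)) = 0 := by
      refine Finset.sum_eq_zero fun i _ => ?_
      rw [if_neg]
      have := i.2
      omega
    rw [h1, map_zero, abs_zero]
    exact hM0

theorem steps_le {n ℓ : ℕ} (f : (Fin n → ℤ) →+ A) (M : A) (hM0 : 0 ≤ M)
    (hM : ∀ l, |f (Pi.single l 1)| ≤ M) (w : Fin ℓ → Lt n) (j e : ℕ) :
    |f (pos w (j + e)) - f (pos w j)| ≤ e • M := by
  induction e with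
  | zero => simp
  | succ e ih =>
    have h1 := step_le f M hM0 hM w (j + e)
    have h2 : f (pos w (j + (e + 1))) - f (pos w j) =
        (f (pos w (j + e + 1)) - f (pos w (j + e))) + (f (pos w (j + e)) - f (pos w j)) := by
      rw [add_assoc j e 1]
      abel
    rw [h2]
    refine (abs_add_le _ _).trans ?_
    rw [succ_nsmul, add_comm (e • M) M]
    exact add_le_add h1 ih

theorem lin_eq {n : ℕ} (f : (Fin n → ℤ) →+ A) (u : Fin n → ℤ) :
    f u = ∑ l, u l • f (Pi.single l 1) := by
  have h : u = ∑ l, u l • (Pi.single l 1 : Fin n → ℤ) := by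
    funext i
    rw [Finset.sum_apply, Finset.sum_eq_single i]
    · simp
    · intro l _ hl
      simp [Ne.symm hl]
    · intro h2
      exact absurd (Finset.mem_univ _) h2
  conv_lhs => rw [h]
  rw [map_sum]
  refine Finset.sum_congr rfl fun l _ => ?_
  rw [map_zsmul]

/-- the displacement in the orthant of `f` -/
theorem big_disp {n : ℕ} (f : (Fin n → ℤ) →+ A) (i : Fin n) (W : ℕ) (d : Fin n → ℤ)
    (η : Fin n → ℤ) (hη : ∀ l, η l = if 0 ≤ f (Pi.single l 1) then 1 else -1)
    (hd : ∀ l, 0 ≤ η l * d l) (hW : (W : ℤ) ≤ η i * d i) :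
    W • |f (Pi.single i 1)| ≤ f d := by
  have h1 : ∀ l, d l • f (Pi.single l 1) = (η l * d l) • |f (Pi.single l 1)| := by
    intro l
    rw [hη l]
    split_ifs with h
    · rw [abs_of_nonneg h, one_mul]
    · rw [abs_of_neg (not_le.1 h), neg_one_mul, neg_smul_neg]
  rw [lin_eq f d, Finset.sum_congr rfl fun l _ => h1 l]
  have h2 : (η i * d i) • |f (Pi.single i 1)| ≤ ∑ l, (η l * d l) • |f (Pi.single l 1)| :=
    Finset.single_le_sum (f := fun l => (η l * d l) • |f (Pi.single l 1)|)
      (fun l _ => zsmul_nonneg (abs_nonneg _) (hd l)) (Finset.mem_univ i)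
  refine le_trans ?_ h2
  rw [← natCast_zsmul]
  exact zsmul_le_zsmul_left (abs_nonneg _) hW

theorem core {n ℓ L S b : ℕ} (w : Fin ℓ → Lt n) (hL : 1 ≤ L) (hc0 : C0 L w)
    (hc1 : C1 b (S * (12 * L + 14)) (6 * L + 12) w) (k k' : Fin n) (hk : k ≠ k')
    (f : (Fin n → ℤ) →+ A) (hf : ∃ u, f u ≠ 0) :
    ∃ t : ℕ → ℕ, (∀ r < S, Win k k' w (t r)) ∧
      ∀ r r', r < r' → r' < S → f (pos w (6 * t r + 1)) < f (pos w (6 * t r' + 1)) := by
  classical
  -- the largest coefficient
  obtain ⟨i, -, hi⟩ := Finset.exists_max_image Finset.univ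
    (fun l : Fin n => |f (Pi.single l 1)|) ⟨k, Finset.mem_univ k⟩
  obtain ⟨M, hMdef⟩ : ∃ M, M = |f (Pi.single i 1)| := ⟨_, rfl⟩
  have hM : ∀ l, |f (Pi.single l 1)| ≤ M := by
    intro l
    rw [hMdef]
    exact hi l (Finset.mem_univ l)
  have hM0 : 0 ≤ M := by
    rw [hMdef]
    exact abs_nonneg _
  have hMpos : 0 < M := by
    rcases hM0.lt_or_eq with h | h
    · exact h
    · exfalso
      obtain ⟨u, hu⟩ := hf
      apply hu
      rw [lin_eq f u]
      refine Finset.sum_eq_zero fun l _ => ?_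
      have h1 := hM l
      rw [← h] at h1
      have h2 : f (Pi.single l 1) = 0 := abs_eq_zero.1 (le_antisymm h1 (abs_nonneg _))
      rw [h2, smul_zero]
  obtain ⟨s, hs, hd, hW⟩ := hc1 i (fun l => if 0 ≤ f (Pi.single l 1) then 1 else -1)
    (fun l => by
      by_cases h : 0 ≤ f (Pi.single l 1)
      · left; simp [h]
      · right; simp [h])
  have hbig : (S * (12 * L + 14)) • M ≤ f (pos w (s + b)) - f (pos w s) := by
    rw [← map_sub, hMdef]
    exact big_disp f i _ (pos w (s + b) - pos w s) _ (fun l => rfl) hd hW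
  -- the first times
  have hex : ∀ r, r < S → ∃ m, f (pos w s) + (r * (12 * L + 14)) • M ≤ f (pos w (s + m)) := by
    intro r hr
    refine ⟨b, ?_⟩
    have h1 : (r * (12 * L + 14)) • M ≤ (S * (12 * L + 14)) • M :=
      nsmul_le_nsmul_left hM0 (Nat.mul_le_mul_right _ hr.le)
    have h2 := h1.trans hbig
    rw [le_sub_iff_add_le] at h2
    rw [add_comm]
    exact h2
  have hwin : ∀ r, r < S → ∃ t, Win k k' w t ∧
      f (pos w s) + (r * (12 * L + 14)) • M ≤ f (pos w (6 * t + 1)) + (6 * L) • M ∧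
      f (pos w (6 * t + 1)) ≤ f (pos w s) + (r * (12 * L + 14) + 1 + 6 * L) • M := by
    intro r hr
    have hP := hex r hr
    obtain ⟨m, hm⟩ : ∃ m, m = Nat.find hP := ⟨_, rfl⟩
    have hm1 : f (pos w s) + (r * (12 * L + 14)) • M ≤ f (pos w (s + m)) := by
      rw [hm]
      exact Nat.find_spec hP
    have hmb : m ≤ b := by
      rw [hm]
      apply Nat.find_min'
      have h1 : (r * (12 * L + 14)) • M ≤ (S * (12 * L + 14)) • M :=
        nsmul_le_nsmul_left hM0 (Nat.mul_le_mul_right _ hr.le)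
      have h2 := h1.trans hbig
      rw [le_sub_iff_add_le] at h2
      rw [add_comm]
      exact h2
    have hm2 : f (pos w (s + m)) ≤ f (pos w s) + (r * (12 * L + 14) + 1) • M := by
      rcases Nat.eq_zero_or_pos m with h0 | h0
      · rw [h0, add_zero]
        exact le_add_of_nonneg_right (nsmul_nonneg hM0 _)
      · have h1 : ¬ (f (pos w s) + (r * (12 * L + 14)) • M ≤ f (pos w (s + (m - 1)))) := by
          have : m - 1 < Nat.find hP := by rw [← hm]; omega
          exact Nat.find_min hP this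
        have h2 := (abs_le.1 (step_le f M hM0 hM w (s + (m - 1)))).2
        have h3 : s + (m - 1) + 1 = s + m := by omega
        rw [h3, sub_le_iff_le_add] at h2
        refine h2.trans ?_
        rw [succ_nsmul, ← add_assoc, add_comm M]
        exact add_le_add (not_le.1 h1).le le_rfl
    obtain ⟨t, ht1, ht2, ht3⟩ := hc0 k k' hk ((s + m + 4) / 6) (by omega)
    refine ⟨t, ht3, ?_, ?_⟩
    · have h4 : ∃ e, 6 * t + 1 = s + m + e ∧ e ≤ 6 * L := ⟨6 * t + 1 - (s + m), by omega, by omega⟩
      obtain ⟨e, he, hee⟩ := h4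
      have h5 := (abs_le.1 (steps_le f M hM0 hM w (s + m) e)).1
      rw [← he] at h5
      have h6 : e • M ≤ (6 * L) • M := nsmul_le_nsmul_left hM0 hee
      refine hm1.trans ?_
      have h7 : f (pos w (s + m)) ≤ f (pos w (6 * t + 1)) + e • M := by
        rw [neg_le_sub_iff_le_add] at h5
        rw [add_comm]
        rw [add_comm] at h5
        exact h5
      exact h7.trans (add_le_add le_rfl h6)
    · have h4 : ∃ e, 6 * t + 1 = s + m + e ∧ e ≤ 6 * L := ⟨6 * t + 1 - (s + m), by omega, by omega⟩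
      obtain ⟨e, he, hee⟩ := h4
      have h5 := (abs_le.1 (steps_le f M hM0 hM w (s + m) e)).2
      rw [← he, sub_le_iff_le_add] at h5
      have h6 : e • M ≤ (6 * L) • M := nsmul_le_nsmul_left hM0 hee
      refine h5.trans ?_
      rw [add_nsmul M (r * (12 * L + 14) + 1) (6 * L), add_comm (e • M), ← add_assoc]
      exact add_le_add hm2 h6
  choose! t ht using hwin
  refine ⟨t, fun r hr => (ht r hr).1, ?_⟩
  intro r r' hrr hr'
  by_contra hcon
  rw [not_lt] at hcon
  obtain ⟨-, -, h2⟩ := ht r (hrr.trans hr')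
  obtain ⟨-, h1, -⟩ := ht r' hr'
  have h3 : f (pos w s) + (r' * (12 * L + 14)) • M ≤
      f (pos w s) + ((r * (12 * L + 14) + 1 + 6 * L) • M + (6 * L) • M) := by
    refine h1.trans ?_
    rw [← add_assoc]
    exact add_le_add (hcon.trans h2) le_rfl
  rw [← add_nsmul] at h3
  have h4 := le_of_add_le_add_left h3
  have h5 : r * (12 * L + 14) + 1 + 6 * L + 6 * L < r' * (12 * L + 14) := by
    have : (r + 1) * (12 * L + 14) ≤ r' * (12 * L + 14) := Nat.mul_le_mul_right _ hrr
    rw [add_mul] at this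
    omega
  exact absurd h4 (not_le.2 (nsmul_lt_nsmul_left hMpos h5))

theorem taskDET : TaskDET := by
  classical
  intro n ℓ L S b w hL _ hc0 hc1 k k' hk Γ _ _ _ lam hlam
  let f : (Fin n → ℤ) →+ Additive Γ :=
    { toFun := fun u => Additive.ofMul (lam (Multiplicative.ofAdd u))
      map_zero' := by
        rw [ofAdd_zero, map_one]
        rfl
      map_add' := by
        intro u v
        rw [ofAdd_add, map_mul]
        rfl }
  have hf : ∃ u, f u ≠ 0 := by
    obtain ⟨u, hu⟩ := hlam
    refine ⟨Multiplicative.toAdd u, fun h => hu ?_⟩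
    exact h
  obtain ⟨t, ht1, ht2⟩ := core w hL hc0 hc1 k k' hk f hf
  have hlt : ∀ r r', r < r' → r' < S → f (pos w (6 * t r + 1)) ≠ f (pos w (6 * t r' + 1)) :=
    fun r r' h h' => (ht2 r r' h h').ne
  have hinj : Set.InjOn t (Finset.range S : Set ℕ) := by
    intro r hr r' hr' h
    simp only [Finset.coe_range, Set.mem_Iio] at hr hr'
    rcases lt_trichotomy r r' with h1 | h1 | h1
    · exact absurd (by rw [h]) (hlt r r' h1 hr')
    · exact h1
    · exact absurd (by rw [h]) (hlt r' r h1 hr)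
  refine ⟨(Finset.range S).image t, ?_, ?_, ?_⟩
  · rw [Finset.card_image_of_injOn hinj, Finset.card_range]
  · intro x hx
    obtain ⟨r, hr, rfl⟩ := Finset.mem_image.1 hx
    exact ht1 r (Finset.mem_range.1 hr)
  · intro x hx y hy hxy
    obtain ⟨r, hr, rfl⟩ := Finset.mem_image.1 (Finset.mem_coe.1 hx)
    obtain ⟨r', hr', rfl⟩ := Finset.mem_image.1 (Finset.mem_coe.1 hy)
    rw [Finset.mem_range] at hr hr'
    have hxy' : f (pos w (6 * t r + 1)) = f (pos w (6 * t r' + 1)) := hxy
    rcases lt_trichotomy r r' with h1 | h1 | h1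
    · exact absurd hxy' (hlt r r' h1 hr')
    · rw [h1]
    · exact absurd hxy'.symm (hlt r' r h1 hr)

end Pool.Agent.H787R3.RM

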